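import Pool.Agent.PCL.Stmts

/-!
Squad PCL (MP_1fc801_co), row QLM: the key counting lemma for two disjoint lattices.
-/

set_option autoImplicit false

namespace Pool.Agent.PCL.H75

theorem card_fib {α β : Type} [DecidableEq β] (s : Finset α) (t : Finset β) (f : α → β) (B : ℝ)
    (hf : ∀ a ∈ s, f a ∈ t)
    (hB : ∀ b ∈ t, (((s.filter fun a => f a = b).card : ℕ) : ℝ) ≤ B) :
    (s.card : ℝ) ≤ B * t.card := by
  rw [Finset.card_eq_sum_card_fiberwise hf]
  push_cast
  calc ∑ b ∈ t, ((s.filter fun a => f a = b).card : ℝ) ≤ ∑ b ∈ t, B := Finset.sum_le_sum hB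
    _ = B * t.card := by rw [Finset.sum_const, nsmul_eq_mul, mul_comm]

theorem core {ι : Type} [Fintype ι] [DecidableEq ι] (N : ι → ℕ) (L M : Submodule ℤ (ι → ℤ))
    (R F : ℝ) (hN : ∀ i, 1 ≤ N i) (hR : 1 ≤ R) (hF : 0 ≤ F) (J : Finset ι)
    (h : ∀ S : Finset ((ι → ℤ) × (ι → ℤ)),
      (∀ p ∈ S, p.1 ∈ L ∧ p.2 ∈ M ∧ InB N R p.1 ∧ InB N R p.2) →
      (∀ p ∈ S, ∀ p' ∈ S, ∀ i, i ∉ J → p.1 i + p.2 i = p'.1 i + p'.2 i) →
      (S.card : ℝ) ≤ F) :
    (cnt L N R : ℝ) * cnt M N R ≤ F * ∏ i, (if i ∈ J then (1 : ℝ) else 5 * (R * N i)) := by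
  classical
  unfold cnt
  rw [← Nat.cast_mul, ← Finset.card_product]
  set S := (Finset.filter (fun x => x ∈ L) (bx N R)) ×ˢ (Finset.filter (fun x => x ∈ M) (bx N R))
    with hS
  have hmem : ∀ p ∈ S, p.1 ∈ L ∧ p.2 ∈ M ∧ InB N R p.1 ∧ InB N R p.2 := by
    intro p hp
    rw [hS, Finset.mem_product, Finset.mem_filter, Finset.mem_filter, mem_bx, mem_bx] at hp
    exact ⟨hp.1.2, hp.2.2, hp.1.1, hp.2.1⟩
  have key := card_fib S
    (Fintype.piFinset fun i => if i ∈ J then ({0} : Finset ℤ) else
      Finset.Icc (-⌊2 * R * N i⌋) ⌊2 * R * N i⌋)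
    (fun p i => if i ∈ J then (0 : ℤ) else p.1 i + p.2 i) F
    (by
      intro p hp
      rw [Fintype.mem_piFinset]
      intro i
      obtain ⟨-, -, h3, h4⟩ := hmem p hp
      by_cases hi : i ∈ J
      · simp [hi]
      · simp only [hi, if_false]
        have h5 := abs_le.1 (h3 i)
        have h6 := abs_le.1 (h4 i)
        rw [Finset.mem_Icc, neg_le, Int.le_floor, Int.le_floor]
        push_cast
        constructor
        · linarith [h5.1, h6.1]
        · linarith [h5.2, h6.2])
    (by
      intro b _
      apply h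
      · intro p hp
        exact hmem p (Finset.mem_filter.1 hp).1
      · intro p hp p' hp' i hi
        have e1 := congrFun (Finset.mem_filter.1 hp).2 i
        have e2 := congrFun (Finset.mem_filter.1 hp').2 i
        simp only [hi, if_false] at e1 e2
        rw [e1, e2])
  refine key.trans (mul_le_mul_of_nonneg_left ?_ hF)
  rw [Fintype.card_piFinset]
  push_cast
  apply Finset.prod_le_prod
  · intro i _
    positivity
  · intro i _
    by_cases hi : i ∈ J
    · simp [hi]
    · simp only [hi, if_false]
      rw [Int.card_Icc]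
      have hNi : (1 : ℝ) ≤ N i := by exact_mod_cast hN i
      have h1 : 1 ≤ R * N i := by nlinarith
      have h0 : (0 : ℤ) ≤ ⌊2 * R * (N i : ℝ)⌋ := Int.floor_nonneg.2 (by nlinarith)
      have h2 : (((⌊2 * R * (N i : ℝ)⌋ + 1 - -⌊2 * R * (N i : ℝ)⌋).toNat : ℤ) : ℝ) =
          2 * (⌊2 * R * (N i : ℝ)⌋ : ℝ) + 1 := by
        rw [Int.toNat_of_nonneg (by omega)]
        push_cast
        ring
      have h3 := Int.floor_le (2 * R * (N i : ℝ))
      have h4 : (((⌊2 * R * (N i : ℝ)⌋ + 1 - -⌊2 * R * (N i : ℝ)⌋).toNat : ℕ) : ℝ) =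
          2 * (⌊2 * R * (N i : ℝ)⌋ : ℝ) + 1 := by
        rw [← h2]
        push_cast
        rfl
      rw [h4]
      nlinarith

theorem qlm (h1 : QfbStmt) (h2 : CntStmt) : QlmStmt := by
  intro ι _ _ N L M ε R hN hLM hε hεR hR hL hM
  classical
  set J : Finset ι := Finset.univ.filter (fun i => 1 ≤ ε * N i) with hJ
  have hNR : ∀ i, (1 : ℝ) ≤ N i := fun i => by exact_mod_cast hN i
  have hbx : ((bx N ε).card : ℝ) ≤ ∏ i, (if i ∈ J then 3 * (ε * N i) else 1) := by
    rw [(h2 ι N ε hε.le).1]
    push_cast
    apply Finset.prod_le_prod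
    · intro i _
      positivity
    · intro i _
      split_ifs with hi
      · have h3 := Nat.floor_le (by positivity : 0 ≤ ε * (N i : ℝ))
        have h4 : 1 ≤ ε * N i := by simpa [hJ] using hi
        linarith
      · have h4 : ¬ 1 ≤ ε * N i := by simpa [hJ] using hi
        rw [Nat.floor_eq_zero.2 (not_le.1 h4)]
        simp
  set A : ℝ := (3 * R / ε) ^ J.card with hA
  set P : ℝ := ∏ i, (if i ∈ J then (1 : ℝ) else 5 * (R * N i)) with hP
  set Q : ℝ := ∏ i, (if i ∈ J then 3 * (ε * N i) else 1) with hQ
  set W : ℝ := (9 * R) ^ Fintype.card ι * ∏ i, (N i : ℝ) with hW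
  have hA0 : 0 ≤ A := by positivity
  have hP0 : 0 ≤ P := by
    apply Finset.prod_nonneg
    intro i _
    split_ifs
    · norm_num
    · positivity
  have hQ0 : 0 ≤ Q := by
    apply Finset.prod_nonneg
    intro i _
    split_ifs
    · positivity
    · norm_num
  have hAe : A = ∏ i, (if i ∈ J then (3 * R / ε) else 1) := by
    rw [Finset.prod_ite_mem, Finset.univ_inter, Finset.prod_const]
  have hmain : A * P * Q ≤ W := by
    have e : W = ∏ i, (9 * R * (N i : ℝ)) := by
      rw [hW, Finset.prod_mul_distrib, Finset.prod_const, Finset.card_univ]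
    rw [e, hAe, hP, hQ, ← Finset.prod_mul_distrib, ← Finset.prod_mul_distrib]
    apply Finset.prod_le_prod
    · intro i _
      split_ifs <;> positivity
    · intro i _
      have := hNR i
      split_ifs
      · have e2 : 3 * R / ε * 1 * (3 * (ε * N i)) = 9 * R * N i := by
          field_simp
          ring
        rw [e2]
      · nlinarith [mul_nonneg (by linarith : (0 : ℝ) ≤ R) (by linarith : (0 : ℝ) ≤ N i)]
  have hW0 : 0 ≤ W := by positivity
  have fin : ∀ (t : ℝ), 0 ≤ t → (cnt L N R : ℝ) * cnt M N R ≤ t * (A * P) →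
      (cnt L N R : ℝ) * cnt M N R * (bx N ε).card ≤ t * W := by
    intro t ht hle
    calc (cnt L N R : ℝ) * cnt M N R * (bx N ε).card ≤ (t * (A * P)) * Q := by
          apply mul_le_mul hle hbx (Nat.cast_nonneg _)
          positivity
      _ = t * (A * P * Q) := by ring
      _ ≤ t * W := mul_le_mul_of_nonneg_left hmain ht
  constructor
  · have h3 := core N L M R A hN hR hA0 J (fun S hS hS' =>
      (h1 ι N L M ε R J S hN hLM hε hεR hR hL hM hS hS').1)
    have h4 := fin 1 zero_le_one (by rw [one_mul]; exact h3)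
    rwa [one_mul] at h4
  · intro c θ hc hcL hcM hεθ hθ
    have hθ0 : 0 ≤ θ := hε.le.trans hεθ
    by_cases hcJ : ∃ i ∈ J, c i ≠ 0
    · have h3 := core N L M R (ε * A) hN hR (by positivity) J (fun S hS hS' =>
        (h1 ι N L M ε R J S hN hLM hε hεR hR hL hM hS hS').2 c hcJ hcL hcM)
      refine fin θ hθ0 (h3.trans ?_)
      rw [mul_assoc]
      exact mul_le_mul_of_nonneg_right hεθ (by positivity)
    · have hcJ' : ∀ i ∈ J, c i = 0 := by
        intro i hi
        by_contra h0
        exact hcJ ⟨i, hi, h0⟩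
      obtain ⟨i₀, hi₀⟩ : ∃ i, c i ≠ 0 := by
        by_contra h0
        apply hc
        funext i
        by_contra h5
        exact h0 ⟨i, h5⟩
      have hi₀J : i₀ ∉ J := fun h => hi₀ (hcJ' i₀ h)
      have h3 := core N L M R A hN hR hA0 (insert i₀ J) (fun S hS hS' =>
        (h1 ι N L M ε R J S hN hLM hε hεR hR hL hM hS (by
          intro p hp p' hp' i hi
          by_cases hii : i = i₀
          · rw [hii]
            have e1 : ∑ i, c i * (p.1 i + p.2 i) = 0 := by
              simp only [mul_add]
              rw [Finset.sum_add_distrib, hcL _ (hS p hp).1, hcM _ (hS p hp).2.1, add_zero]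
            have e2 : ∑ i, c i * (p'.1 i + p'.2 i) = 0 := by
              simp only [mul_add]
              rw [Finset.sum_add_distrib, hcL _ (hS p' hp').1, hcM _ (hS p' hp').2.1, add_zero]
            have e3 : ∑ i, c i * ((p.1 i + p.2 i) - (p'.1 i + p'.2 i)) = 0 := by
              simp only [mul_sub]
              rw [Finset.sum_sub_distrib, e1, e2, sub_zero]
            rw [Finset.sum_eq_single i₀] at e3
            · rcases mul_eq_zero.1 e3 with h6 | h6
              · exact absurd h6 hi₀
              · exact sub_eq_zero.1 h6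
            · intro j _ hj
              by_cases hjJ : j ∈ J
              · rw [hcJ' j hjJ, zero_mul]
              · rw [hS' p hp p' hp' j (by
                  rw [Finset.mem_insert]
                  rintro (h7 | h7)
                  · exact hj h7
                  · exact hjJ h7), sub_self, mul_zero]
            · intro h7
              exact absurd (Finset.mem_univ _) h7
          · exact hS' p hp p' hp' i (by
              rw [Finset.mem_insert]
              rintro (h7 | h7)
              · exact hii h7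
              · exact hi h7))).1)
      refine fin θ hθ0 (h3.trans ?_)
      have h8 : ∏ i, (if i ∈ insert i₀ J then (1 : ℝ) else 5 * (R * N i)) ≤ θ * P := by
        rw [hP, ← Finset.mul_prod_erase Finset.univ _ (Finset.mem_univ i₀),
          ← Finset.mul_prod_erase Finset.univ (fun i => if i ∈ J then (1 : ℝ) else 5 * (R * N i))
            (Finset.mem_univ i₀)]
        have e4 : ∏ i ∈ Finset.univ.erase i₀,
            (if i ∈ insert i₀ J then (1 : ℝ) else 5 * (R * N i)) =
            ∏ i ∈ Finset.univ.erase i₀, (if i ∈ J then (1 : ℝ) else 5 * (R * N i)) := by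
          apply Finset.prod_congr rfl
          intro i hi
          have hne := Finset.ne_of_mem_erase hi
          simp only [Finset.mem_insert, hne, false_or]
        rw [e4, ← mul_assoc θ]
        apply mul_le_mul_of_nonneg_right
        · simp only [Finset.mem_insert, true_or, if_true, hi₀J, if_false]
          have h9 := hθ i₀
          have h10 := hNR i₀
          rw [div_le_iff₀ (by linarith)] at h9
          nlinarith [mul_le_mul_of_nonneg_right hR (by linarith : (0 : ℝ) ≤ θ * N i₀)]
        · apply Finset.prod_nonneg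
          intro i _
          split_ifs
          · norm_num
          · positivity
      calc A * ∏ i, (if i ∈ insert i₀ J then (1 : ℝ) else 5 * (R * N i)) ≤ A * (θ * P) :=
            mul_le_mul_of_nonneg_left h8 hA0
        _ = θ * (A * P) := by ring

end Pool.Agent.PCL.H75
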